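import Mathlib

set_option autoImplicit false

namespace Pool.Agent.H.MP_9442c3_al

open Matrix in
/-- nonzero integer vectors -/
abbrev V := {v : Fin 2 → ℤ // v ≠ 0}

abbrev SL2 := Matrix.SpecialLinearGroup (Fin 2) ℤ

open Matrix in
instance actV : MulAction SL2 V where
  smul g v := ⟨g.1 *ᵥ v.1, fun h => v.2 (by
    have h1 : (g⁻¹ * g).1 *ᵥ v.1 = 0 := by
      show ((g⁻¹).1 * g.1) *ᵥ v.1 = 0
      rw [← mulVec_mulVec, h, mulVec_zero]
    simpa using h1)⟩
  one_smul v := Subtype.ext (by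
    show (1 : SL2).1 *ᵥ v.1 = v.1
    simp)
  mul_smul g h v := Subtype.ext (by
    show (g.1 * h.1) *ᵥ v.1 = g.1 *ᵥ (h.1 *ᵥ v.1)
    rw [mulVec_mulVec])

open Matrix in
theorem smul_val (g : SL2) (v : V) : (g • v).1 = g.1 *ᵥ v.1 := rfl

def mA : SL2 := ⟨!![1, 2; 0, 1], by simp [Matrix.det_fin_two]⟩
def mB : SL2 := ⟨!![1, 0; 2, 1], by simp [Matrix.det_fin_two]⟩
def gens : Fin 2 → SL2 := ![mA, mB]

def rho : FreeGroup (Fin 2) →* SL2 := FreeGroup.lift gens

theorem vne (v : V) : v.1 0 ≠ 0 ∨ v.1 1 ≠ 0 := by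
  by_contra h
  push Not at h
  apply v.2
  ext i
  fin_cases i
  · exact h.1
  · exact h.2

def XX : Fin 2 → Set V :=
  ![{v | v.1 1 ≠ 0 ∧ 0 ≤ (v.1 0 - v.1 1) * v.1 1}, {v | 0 < (v.1 1 - v.1 0) * v.1 0}]
def YY : Fin 2 → Set V :=
  ![{v | v.1 1 = 0 ∨ (v.1 0 + v.1 1) * v.1 1 < 0}, {v | (v.1 0 + v.1 1) * v.1 0 ≤ 0}]

theorem mA_inv : (mA⁻¹).1 = !![1, -2; 0, 1] := by
  simp [mA, Matrix.SpecialLinearGroup.coe_inv, Matrix.adjugate_fin_two]
theorem mB_inv : (mB⁻¹).1 = !![1, 0; -2, 1] := by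
  simp [mB, Matrix.SpecialLinearGroup.coe_inv, Matrix.adjugate_fin_two]

theorem rho_inj : Function.Injective rho := by
  apply FreeGroup.injective_lift_of_ping_pong gens XX YY
  · intro i
    fin_cases i
    · exact ⟨⟨![1, 1], by simp⟩, by simp [XX]⟩
    · exact ⟨⟨![1, 2], by simp⟩, by simp [XX]⟩
  · intro i j hij
    fin_cases i <;> fin_cases j <;> first | exact absurd rfl hij | skip
    all_goals
      simp only [Function.onFun, XX, Set.disjoint_left]
      intro v h1 h2
      simp at h1 h2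
      rcases lt_trichotomy (v.1 0) 0 with h | h | h <;>
        rcases lt_trichotomy (v.1 1) 0 with h' | h' | h' <;> nlinarith
  · intro i j hij
    fin_cases i <;> fin_cases j <;> first | exact absurd rfl hij | skip
    all_goals
      simp only [Function.onFun, YY, Set.disjoint_left]
      intro v h1 h2
      have := vne v
      simp only [Fin.zero_eta, Fin.mk_one, Matrix.cons_val_zero, Matrix.cons_val_one,
        Set.mem_ofPred_eq] at h1 h2
      first
        | (rcases h1 with h1 | h1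
           · rw [h1] at h2 this
             simp at this
             have := mul_self_pos.mpr this
             nlinarith
           · nlinarith [mul_self_nonneg (v.1 0 + v.1 1)])
        | (rcases h2 with h2 | h2
           · rw [h2] at h1 this
             simp at this
             have := mul_self_pos.mpr this
             nlinarith
           · nlinarith [mul_self_nonneg (v.1 0 + v.1 1)])
  · intro i j
    fin_cases i <;> fin_cases j
    all_goals
      simp only [XX, YY, Set.disjoint_left]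
      intro v h1 h2
      simp only [Fin.zero_eta, Fin.mk_one, Matrix.cons_val_zero, Matrix.cons_val_one,
        Set.mem_ofPred_eq] at h1 h2
    · rcases h2 with h2 | h2
      · exact h1.1 h2
      · nlinarith [mul_self_nonneg (v.1 1), h1.2]
    · have := mul_self_pos.mpr h1.1
      have h3 := h1.2
      rcases lt_trichotomy (v.1 0) 0 with h | h | h <;>
        rcases lt_trichotomy (v.1 1) 0 with h' | h' | h' <;> nlinarith
    · rcases h2 with h2 | h2
      · rw [h2] at h1
        nlinarith [mul_self_nonneg (v.1 0)]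
      · nlinarith [mul_self_nonneg (v.1 0), mul_self_nonneg (v.1 1)]
    · nlinarith [mul_self_nonneg (v.1 0)]
  · intro i
    fin_cases i
    · rintro _ ⟨v, hv, rfl⟩
      simp only [XX, YY, Fin.zero_eta, Matrix.cons_val_zero, Set.mem_compl_iff,
        Set.mem_ofPred_eq, not_or, not_lt, gens, smul_val, mA] at hv ⊢
      simp [Matrix.mulVec, dotProduct, Fin.sum_univ_two]
      exact ⟨hv.1, by nlinarith [hv.2]⟩
    · rintro _ ⟨v, hv, rfl⟩
      simp only [XX, YY, Fin.mk_one, Matrix.cons_val_one, Matrix.cons_val_zero, Set.mem_compl_iff,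
        Set.mem_ofPred_eq, not_le, gens, smul_val, mB] at hv ⊢
      simp [Matrix.mulVec, dotProduct, Fin.sum_univ_two]
      nlinarith
  · intro i
    fin_cases i
    · rintro _ ⟨v, hv, rfl⟩
      simp only [XX, YY, Fin.zero_eta, Matrix.cons_val_zero, Set.mem_compl_iff, Pi.inv_apply,
        Set.mem_ofPred_eq, not_and, not_le, gens, smul_val, mA_inv] at hv ⊢
      simp [Matrix.mulVec, dotProduct, Fin.sum_univ_two]
      by_cases h : v.1 1 = 0
      · exact Or.inl h
      · right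
        nlinarith [hv h]
    · rintro _ ⟨v, hv, rfl⟩
      simp only [XX, YY, Fin.mk_one, Matrix.cons_val_one, Matrix.cons_val_zero, Set.mem_compl_iff,
        Pi.inv_apply, Set.mem_ofPred_eq, not_lt, gens, smul_val, mB_inv] at hv ⊢
      simp [Matrix.mulVec, dotProduct, Fin.sum_univ_two]
      nlinarith

section
open FreeGroup

lemma central_sub {β : Type*} (z : FreeGroup β) (hz : z ≠ 1) (hc : ∀ g, g * z = z * g) :
    Subsingleton β := by
  classical
  by_contra hβ
  rw [not_subsingleton_iff_nontrivial] at hβ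
  have hw : z.toWord ≠ [] := fun h => hz (toWord_eq_nil_iff.1 h)
  obtain ⟨x, w, hxw⟩ := List.exists_cons_of_ne_nil hw
  obtain ⟨g, hg⟩ := exists_ne x.1
  have h1 : (of g * z).toWord = (g, true) :: z.toWord := by
    rw [toWord_mul, toWord_of, List.singleton_append, reduce.cons, reduce_toWord, hxw]
    simp [hg]
  have h2 := toWord_mul_sublist z (of g)
  rw [← hc, h1, toWord_of] at h2
  have h3 := h2.eq_of_length (by simp)
  rw [hxw] at h3
  simp only [List.cons_append, List.cons.injEq] at h3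
  exact hg (congrArg Prod.fst h3.1)

lemma central_cyclic (H : Type*) [Group H] [IsFreeGroup H] (z : H) (hz : z ≠ 1)
    (hc : ∀ g, g * z = z * g) : IsCyclic H := by
  let e := IsFreeGroup.toFreeGroup H
  have hs : Subsingleton (IsFreeGroup.Generators H) :=
    central_sub (e z) (by simpa using hz) (fun g => by
      obtain ⟨g, rfl⟩ := e.surjective g
      rw [← _root_.map_mul, hc, _root_.map_mul])
  have : IsCyclic (FreeGroup (IsFreeGroup.Generators H)) := by
    rcases isEmpty_or_nonempty (IsFreeGroup.Generators H) with h | h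
    · infer_instance
    · let _ : Unique (IsFreeGroup.Generators H) := uniqueOfSubsingleton h.some
      infer_instance
  exact isCyclic_of_surjective e.symm e.symm.surjective

variable {α : Type*}

lemma cent_gen (a : FreeGroup α) (ha : a ≠ 1) :
    ∃ t : FreeGroup α, Commute t a ∧ ∀ g, Commute g a → ∃ k : ℤ, g = t ^ k := by
  let H := Subgroup.centralizer ({a} : Set (FreeGroup α))
  have hmem : ∀ g, g ∈ H ↔ Commute g a := fun g => by
    simp [H, Subgroup.mem_centralizer_iff, commute_iff_eq, eq_comm]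
  have : IsCyclic H := central_cyclic H ⟨a, (hmem a).2 (Commute.refl a)⟩
    (fun h => ha (congrArg Subtype.val h)) (fun g => Subtype.ext ((hmem g).1 g.2))
  obtain ⟨t, ht⟩ := IsCyclic.exists_generator (α := H)
  refine ⟨t, (hmem _).1 t.2, fun g hg => ?_⟩
  obtain ⟨k, hk⟩ := ht ⟨g, (hmem g).2 hg⟩
  exact ⟨k, (congrArg Subtype.val hk).symm⟩

end

abbrev F2 := FreeGroup (Fin 2)
abbrev M2 := Matrix (Fin 2) (Fin 2) ℝ

def rm (g : F2) : M2 := (rho g).1.map (Int.castRingHom ℝ)

theorem comm_of {g w : F2} {μ : ℝ} (hμ : Irrational μ) (hr : (rho w).1 1 0 ≠ 0)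
    (h1 : rm w 1 0 * μ ^ 2 + (rm w 1 1 - rm w 0 0) * μ - rm w 0 1 = 0)
    (h2 : rm g 1 0 * μ ^ 2 + (rm g 1 1 - rm g 0 0) * μ - rm g 0 1 = 0) : Commute g w := by
  simp only [rm, Matrix.map_apply, eq_intCast] at h1 h2
  apply rho_inj
  rw [map_mul, map_mul]
  apply Subtype.ext
  rw [Matrix.SpecialLinearGroup.coe_mul, Matrix.SpecialLinearGroup.coe_mul]
  generalize (rho g).1 = A at *
  generalize (rho w).1 = B at *
  have e : ((B 1 0 * (A 1 1 - A 0 0) - A 1 0 * (B 1 1 - B 0 0) : ℤ) : ℝ) * μ =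
      ((B 1 0 * A 0 1 - A 1 0 * B 0 1 : ℤ) : ℝ) := by
    push_cast; linear_combination (B 1 0 : ℝ) * h2 - (A 1 0 : ℝ) * h1
  have e1 : B 1 0 * (A 1 1 - A 0 0) - A 1 0 * (B 1 1 - B 0 0) = 0 := by
    by_contra h
    exact (hμ.intCast_mul h).ne_int _ e
  have e2 : B 1 0 * A 0 1 - A 1 0 * B 0 1 = 0 := by
    rw [e1] at e
    exact_mod_cast (by simpa using e.symm : ((B 1 0 * A 0 1 - A 1 0 * B 0 1 : ℤ) : ℝ) = 0)
  ext i j
  fin_cases i <;> fin_cases j <;> simp [Matrix.mul_apply, Fin.sum_univ_two]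
  · linear_combination e2
  · apply mul_left_cancel₀ hr
    linear_combination (-B 0 1) * e1 + (B 1 1 - B 0 0) * e2
  · linear_combination e1
  · linear_combination -e2

theorem nsq {t : ℤ} (ht : 2 < t) : ¬ IsSquare (t ^ 2 - 4) := by
  rintro ⟨r, hr⟩
  rw [← abs_mul_abs_self r] at hr
  have := abs_nonneg r
  generalize |r| = u at *
  have a : u < t := by nlinarith
  nlinarith

theorem diag (w : F2) (ht : 2 < (rho w).1 0 0 + (rho w).1 1 1) :
    ∃ (S : F2 →* M2) (l : ℝ), 1 < l ∧ S w = Matrix.diagonal ![l, l⁻¹] ∧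
      ∀ g, S g 0 1 = 0 ∨ S g 1 0 = 0 → Commute g w := by
  have hD := nsq ht
  have hd := (rho w).2
  rw [Matrix.det_fin_two] at hd
  have hr : (rho w).1 1 0 ≠ 0 := fun h => by
    rw [h, mul_zero, sub_zero] at hd
    rcases Int.eq_one_or_neg_one_of_mul_eq_one' hd with h | h <;> omega
  obtain ⟨p, hp⟩ : ∃ p, p = (rho w).1 0 0 := ⟨_, rfl⟩
  obtain ⟨q, hq⟩ : ∃ p, p = (rho w).1 0 1 := ⟨_, rfl⟩
  obtain ⟨r, hr'⟩ : ∃ p, p = (rho w).1 1 0 := ⟨_, rfl⟩
  obtain ⟨s, hs⟩ : ∃ p, p = (rho w).1 1 1 := ⟨_, rfl⟩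
  have hw : rm w = !![(p : ℝ), q; r, s] := by
    ext i j; fin_cases i <;> fin_cases j <;> simp [rm, hp, hq, hr', hs]
  have hr0 := hr
  rw [← hp, ← hs] at ht hD
  rw [← hp, ← hs, ← hq, ← hr'] at hd
  rw [← hr'] at hr
  have hD0 : 0 < (p + s) ^ 2 - 4 := by nlinarith
  obtain ⟨d, hd'⟩ : ∃ d, d = √(((p + s) ^ 2 - 4 : ℤ) : ℝ) := ⟨_, rfl⟩
  have di : Irrational d := hd' ▸ irrational_sqrt_intCast_iff.2 ⟨hD, hD0.le⟩
  have d0 : 0 < d := hd' ▸ Real.sqrt_pos.2 (by exact_mod_cast hD0)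
  have d2 : d ^ 2 = (p + s) ^ 2 - 4 := by
    rw [hd', Real.sq_sqrt (by exact_mod_cast hD0.le)]; push_cast; ring
  have hdR : (p : ℝ) * s - q * r = 1 := by exact_mod_cast hd
  have hrR : (r : ℝ) ≠ 0 := by exact_mod_cast hr
  have htR : (2 : ℝ) < p + s := by exact_mod_cast ht
  obtain ⟨μ, hμ⟩ : ∃ μ, μ = (((p - s : ℤ) : ℝ) + d) / ((2 * r : ℤ) : ℝ) := ⟨_, rfl⟩
  obtain ⟨ν, hν⟩ : ∃ μ, μ = (((p - s : ℤ) : ℝ) - d) / ((2 * r : ℤ) : ℝ) := ⟨_, rfl⟩
  have μi : Irrational μ := hμ ▸ (di.intCast_add _).div_intCast (by omega)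
  have νi : Irrational ν := hν ▸ (di.intCast_sub _).div_intCast (by omega)
  have a1 : 2 * r * μ = p - s + d := by rw [hμ]; push_cast; field_simp
  have a2 : 2 * r * ν = p - s - d := by rw [hν]; push_cast; field_simp
  have b1 : r * μ ^ 2 + (s - p) * μ - q = 0 := by
    apply mul_left_cancel₀ (mul_ne_zero four_ne_zero hrR)
    linear_combination (2 * r * μ + d - p + s) * a1 + d2 + 4 * hdR
  have b2 : r * ν ^ 2 + (s - p) * ν - q = 0 := by
    apply mul_left_cancel₀ (mul_ne_zero four_ne_zero hrR)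
    linear_combination (2 * r * ν - d - p + s) * a2 + d2 + 4 * hdR
  have ne : μ - ν ≠ 0 := fun h => d0.ne' (by linear_combination r * h - a1 / 2 + a2 / 2)
  have e : !![μ, ν; 1, 1] * ((μ - ν)⁻¹ • !![1, -ν; -1, μ]) = (1 : M2) := by
    ext i j
    fin_cases i <;> fin_cases j <;> simp [Matrix.mul_apply, Fin.sum_univ_two] <;> field_simp <;> ring
  let S : F2 →* M2 :=
    { toFun := fun g => (μ - ν)⁻¹ • !![1, -ν; -1, μ] * rm g * !![μ, ν; 1, 1]
      map_one' := by
        rw [rm, map_one, Matrix.SpecialLinearGroup.coe_one, Matrix.map_one _ (by simp) (by simp),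
          mul_one]
        exact mul_eq_one_comm.1 e
      map_mul' := fun g h => by
        rw [rm, map_mul, Matrix.SpecialLinearGroup.coe_mul, Matrix.map_mul]
        simp only [Matrix.mul_assoc, rm]
        rw [← Matrix.mul_assoc !![μ, ν; 1, 1], e, Matrix.one_mul] }
  have S0 : ∀ g, S g = (μ - ν)⁻¹ • !![1, -ν; -1, μ] * rm g * !![μ, ν; 1, 1] := fun _ => rfl
  have li : ((p + s + d) / 2)⁻¹ = (p + s - d) / 2 :=
    inv_eq_of_mul_eq_one_right (by linear_combination (-1 / 4) * d2)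
  refine ⟨S, (p + s + d) / 2, by linarith, ?_, fun g hg => ?_⟩
  · rw [S0, hw, li]
    ext i j
    fin_cases i <;> fin_cases j <;>
      simp [Matrix.mul_apply, Fin.sum_univ_two] <;> field_simp
    · linear_combination (-2) * b1 + (μ - ν) * a1
    · linear_combination -b2
    · linear_combination b1
    · linear_combination 2 * b2 + (μ - ν) * a2
  · rcases hg with h | h
    · refine comm_of νi hr0 (by simpa [hw] using b2) ?_
      simp [S0, Matrix.mul_apply, Fin.sum_univ_two, Matrix.vecMul, dotProduct] at h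
      field_simp at h
      linear_combination -h
    · refine comm_of μi hr0 (by simpa [hw] using b1) ?_
      simp [S0, Matrix.mul_apply, Fin.sum_univ_two, Matrix.vecMul, dotProduct] at h
      field_simp at h
      linear_combination h

section
variable {Γ : Type} [Group Γ] (B : Bool → Subgroup Γ) (v : Γ)

inductive NF : Bool → Γ → Prop
  | base (i : Bool) (h : Γ) : h ∈ B i → h ∉ Subgroup.zpowers v → NF i h
  | step (i : Bool) (h g : Γ) : h ∈ B i → h ∉ Subgroup.zpowers v → NF (!i) g → NF i (h * g)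

variable {B v}

theorem NF.zmul (hv : ∀ i, v ∈ B i) {z : Γ} (hz : z ∈ Subgroup.zpowers v) {i : Bool} {g : Γ}
    (h : NF B v i g) : NF B v i (z * g) := by
  have a : ∀ i h, h ∈ B i → h ∉ Subgroup.zpowers v → z * h ∈ B i ∧ z * h ∉ Subgroup.zpowers v :=
    fun i h h1 h2 => ⟨mul_mem ((Subgroup.zpowers_le_of_mem (hv i)) hz) h1,
      fun h3 => h2 ((Subgroup.mul_mem_cancel_left _ hz).1 h3)⟩
  cases h with
  | base _ _ h1 h2 => exact .base _ _ (a _ _ h1 h2).1 (a _ _ h1 h2).2
  | step _ h g h1 h2 h3 => exact mul_assoc z h g ▸ .step _ _ _ (a _ _ h1 h2).1 (a _ _ h1 h2).2 h3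

theorem bmul (hv : ∀ i, v ∈ B i) {i : Bool} {b g : Γ} (hb : b ∈ B i)
    (h : g ∈ Subgroup.zpowers v ∨ ∃ j, NF B v j g) :
    b * g ∈ Subgroup.zpowers v ∨ ∃ j, NF B v j (b * g) := by
  have a : ∀ g ∈ B i, g ∈ Subgroup.zpowers v ∨ ∃ j, NF B v j g := fun g hg =>
    (em _).imp_right fun h => ⟨i, .base _ _ hg h⟩
  rcases h with h | ⟨j, h⟩
  · exact a _ (mul_mem hb (Subgroup.zpowers_le_of_mem (hv i) h))
  by_cases hz : b ∈ Subgroup.zpowers v
  · exact Or.inr ⟨j, h.zmul hv hz⟩
  by_cases hj : j = i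
  · subst hj
    cases h with
    | base _ _ h1 h2 => exact a _ (mul_mem hb h1)
    | step _ h g h1 h2 h3 =>
      rw [← mul_assoc]
      by_cases h4 : b * h ∈ Subgroup.zpowers v
      · exact Or.inr ⟨_, h3.zmul hv h4⟩
      · exact Or.inr ⟨_, .step _ _ _ (mul_mem hb h1) h4 h3⟩
  · obtain rfl : j = !i := by cases i <;> cases j <;> simp_all
    exact Or.inr ⟨i, .step _ _ _ hb hz h⟩

open Filter Topology Matrix in
theorem double (hv : ∀ i, v ∈ B i) (hB : B false ⊔ B true = ⊤) (σ : ℕ → Γ →* F2)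
    (h0 : ∀ n, ∀ g ∈ B false, σ n g = σ 0 g)
    (h1 : ∀ n, ∀ g ∈ B true, σ n g = (σ 0 v)⁻¹ ^ n * σ 0 g * σ 0 v ^ n)
    (hC : ∀ i, ∀ g ∈ B i, Commute (σ 0 g) (σ 0 v) → g ∈ Subgroup.zpowers v)
    (ht : 2 < (rho (σ 0 v)).1 0 0 + (rho (σ 0 v)).1 1 1)
    (g : Γ) (hg : g ≠ 1) : ∀ᶠ n in atTop, σ n g ≠ 1 := by
  obtain ⟨S, l, hl, hS, hc⟩ := diag _ ht
  have l0 : l ≠ 0 := by positivity
  have hS' : S (σ 0 v)⁻¹ = diagonal ![l⁻¹, l] := by
    have h : S (σ 0 v)⁻¹ * S (σ 0 v) = 1 := by rw [← map_mul]; simp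
    rw [← inv_eq_left_inv h, hS]
    refine inv_eq_left_inv ?_
    rw [diagonal_mul_diagonal, ← diagonal_one]
    congr 1
    ext i
    fin_cases i <;> simp [l0]
  have nz : ∀ i, ∀ h ∈ B i, h ∉ Subgroup.zpowers v → S (σ 0 h) 0 1 ≠ 0 ∧ S (σ 0 h) 1 0 ≠ 0 :=
    fun i h h1 h2 => ⟨fun e => h2 (hC i h h1 (hc _ (.inl e))), fun e => h2 (hC i h h1 (hc _ (.inr e)))⟩
  let ε : ℕ → ℝ := fun n => l⁻¹ ^ n * l⁻¹ ^ n
  have t0 : Tendsto ε atTop (𝓝 0) := by
    have := tendsto_pow_atTop_nhds_zero_of_lt_one (by positivity) (inv_lt_one_of_one_lt₀ hl)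
    simpa only [mul_zero] using this.mul this
  have t1 : ∀ h ∈ B true, Tendsto (fun n => ε n • S (σ n h)) atTop
      (𝓝 !![0, 0; S (σ 0 h) 1 0, 0]) := fun h hh => by
    have e : ∀ n, ε n • S (σ n h) = !![ε n * S (σ 0 h) 0 0, ε n * ε n * S (σ 0 h) 0 1;
        S (σ 0 h) 1 0, ε n * S (σ 0 h) 1 1] := fun n => by
      rw [h1 n h hh, map_mul, map_mul, map_pow, map_pow, hS, hS', diagonal_pow, diagonal_pow]
      ext i j
      have := pow_ne_zero n l0
      fin_cases i <;> fin_cases j <;>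
        simp [ε, diagonal_mul, mul_diagonal, -mul_eq_mul_left_iff, -mul_eq_mul_right_iff] <;>
        field_simp
    simp only [e]
    refine tendsto_pi_nhds.2 fun i => tendsto_pi_nhds.2 fun j => ?_
    fin_cases i <;> fin_cases j
    · simpa using t0.mul_const (S (σ 0 h) 0 0)
    · simpa using (t0.mul t0).mul_const (S (σ 0 h) 0 1)
    · simp
    · simpa using t0.mul_const (S (σ 0 h) 1 1)
  have key : ∀ i g, NF B v i g → ∃ (d : ℕ) (L : M2),
      Tendsto (fun n => ε n ^ d • S (σ n g)) atTop (𝓝 L) ∧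
      (i = true → L 0 = 0 ∧ L 1 ≠ 0 ∧ d ≠ 0) ∧ (i = false → L 0 ≠ 0 ∧ (d ≠ 0 ∨ L 0 1 ≠ 0)) := by
    intro i g h
    induction h with
    | base i h a b =>
      have c := nz i h a b
      cases i
      · refine ⟨0, S (σ 0 h), ?_, by simp, fun _ => ⟨fun e => c.1 (congrFun e 1), .inr c.1⟩⟩
        simp [fun n => h0 n h a]
      · refine ⟨1, !![0, 0; S (σ 0 h) 1 0, 0], by simpa using t1 h a,
           fun _ => ⟨?_, fun e => c.2 (congrFun e 0), one_ne_zero⟩,
          by simp⟩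
        ext j; fin_cases j <;> simp
    | step i h g a b _ ih =>
      have c := nz i h a b
      obtain ⟨d, L, hL, i1, i2⟩ := ih
      cases i
      · obtain ⟨j1, j2, j3⟩ := i1 rfl
        refine ⟨d, S (σ 0 h) * L, ?_, by simp, fun _ => ⟨fun e => j2 ?_, .inl j3⟩⟩
        · simpa [fun n => h0 n h a] using hL.const_mul (S (σ 0 h))
        · ext j
          have := congrFun e j
          simpa [mul_apply, Fin.sum_univ_two, j1, c.1] using this
      · obtain ⟨j1, -⟩ := i2 rfl
        refine ⟨d + 1, !![0, 0; S (σ 0 h) 1 0, 0] * L, ?_,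
          fun _ => ⟨?_, fun e => j1 ?_, by omega⟩, by simp⟩
        · have := (t1 h a).mul hL
          simpa [pow_succ, smul_smul] using this
        · ext j; simp [mul_apply, Fin.sum_univ_two]
        · ext j
          have := congrFun e j
          simpa [mul_apply, Fin.sum_univ_two, c.2] using this
  have nf : g ∈ Subgroup.zpowers v ∨ ∃ j, NF B v j g := by
    have : g ∈ Subgroup.closure ((B false : Set Γ) ∪ B true) := by
      rw [Subgroup.closure_union, Subgroup.closure_eq, Subgroup.closure_eq, hB]; trivial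
    clear hg
    induction this using Subgroup.closure_induction_left with
    | one => exact .inl (one_mem _)
    | mul_left x hx y _ ih => exact hx.elim (fun h => bmul hv h ih) fun h => bmul hv h ih
    | inv_mul_cancel x hx y _ ih =>
      exact hx.elim (fun h => bmul hv (inv_mem h) ih) fun h => bmul hv (inv_mem h) ih
  rcases nf with ⟨k, rfl⟩ | ⟨i, h⟩
  · refine Eventually.of_forall fun n e => hg ?_
    rw [h0 n _ (zpow_mem (hv _) _), map_zpow] at e
    have : σ 0 v ≠ 1 := fun h => by simp [h] at ht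
    have h2 : σ 0 v ^ k = σ 0 v ^ (0 : ℤ) := by rw [e, zpow_zero]
    rw [(injective_zpow_iff_not_isOfFinOrder.2 (not_isOfFinOrder_of_isMulTorsionFree this)) h2]
    exact zpow_zero _
  · obtain ⟨d, L, hL, i1, i2⟩ := key i g h
    by_contra hn
    have := tendsto_nhds_unique_of_frequently_eq hL ((t0.pow d).smul_const (1 : M2))
      ((not_eventually.1 hn).mono fun n e => by rw [not_not.1 e, map_one])
    cases i
    · obtain ⟨j1, j2 | j2⟩ := i2 rfl
      · exact j1 (by ext; simp [this, j2])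
      · exact j2 (by simp [this])
    · obtain ⟨-, j2, j3⟩ := i1 rfl
      exact j2 (by ext; simp [this, j3])

end

end Pool.Agent.H.MP_9442c3_al
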