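import Pool.Agent.H.MP_9442c3_al.A

set_option autoImplicit false

namespace Pool.Agent.H.MP_9442c3_al
open Filter
open FreeGroup (of lift ext_hom closure_range_of lift_apply_of)

abbrev F3 := FreeGroup (Fin 3)
abbrev F4 := FreeGroup (Fin 4)

section
variable {G : Type} [Group G]

def dg (p q : G) : Equiv.Perm (G × Bool) where
  toFun z := (cond z.2 q p * z.1, z.2)
  invFun z := ((cond z.2 q p)⁻¹ * z.1, z.2)
  left_inv z := by simp
  right_inv z := by simp

def sw (k : G) : Equiv.Perm (G × Bool) where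
  toFun z := (cond z.2 k 1 * z.1, !z.2)
  invFun z := (cond z.2 1 k⁻¹ * z.1, !z.2)
  left_inv := by rintro ⟨g, _ | _⟩ <;> simp
  right_inv := by rintro ⟨g, _ | _⟩ <;> simp

theorem wr {ι : Type} (φ : FreeGroup ι →* G) (θ : G →* Equiv.Perm (FreeGroup ι × Bool))
    (h : ∀ i g, θ (φ (of i)) (g, false) = (of i * g, false)) : Function.Injective φ := by
  have a : ∀ u g, θ (φ u) (g, false) = (u * g, false) := fun u => by
    induction u using FreeGroup.induction_on with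
    | C1 => simp
    | of i => exact h i
    | inv_of i _ =>
      intro g
      rw [map_inv, map_inv, Equiv.Perm.inv_eq_iff_eq, h]
      simp
    | mul x y hx hy => intro g; simp [hx, hy, mul_assoc]
  refine (injective_iff_map_eq_one _).2 fun u hu => ?_
  simpa [hu] using (a u 1).symm

theorem linv {G' : Type} [Group G'] (φ : G →* G') (r : G' →* G) (h : r.comp φ = MonoidHom.id G) :
    Function.Injective φ :=
  Function.LeftInverse.injective (g := r) (DFunLike.congr_fun h)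

end

def jj : F3 →* F2 := lift ![of 1, (of 0)⁻¹ * of 1 * of 0, (of 0)⁻¹ * (of 0)⁻¹]
def al : F2 →* F2 := lift ![of 0 * of 1, of 0 * of 1 * of 0]
def em : F3 →* F2 := al.comp jj

theorem em_inj : Function.Injective em := by
  refine (linv al (lift ![(of 0)⁻¹ * of 1, (of 1)⁻¹ * of 0 * of 0]) ?_).comp
    (wr jj (lift ![sw (of 2)⁻¹, dg (of 0) (of 1)]) fun i g => ?_)
  · ext i; fin_cases i <;> simp [al, mul_assoc]
  · fin_cases i <;> simp [jj, sw, dg, Equiv.Perm.inv_def]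

theorem double' {Γ ι κ : Type} [Group Γ] (τ : FreeGroup ι →* Γ) (τ' : FreeGroup κ →* Γ) (v : Γ)
    (hv : v ∈ τ.range) (hv' : v ∈ τ'.range) (hB : τ.range ⊔ τ'.range = ⊤) (φ : ℕ → Γ →* F3)
    (h0 : ∀ n i, φ n (τ (of i)) = φ 0 (τ (of i)))
    (h1 : ∀ n i, φ n (τ' (of i)) = (φ 0 v)⁻¹ ^ n * φ 0 (τ' (of i)) * φ 0 v ^ n)
    (i0 : Function.Injective ((φ 0).comp τ)) (i1 : Function.Injective ((φ 0).comp τ'))
    (χ : F3 →* Multiplicative ℤ) (hχ : χ (φ 0 v) = Multiplicative.ofAdd 1)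
    (ht : 2 < (rho (em (φ 0 v))).1 0 0 + (rho (em (φ 0 v))).1 1 1)
    (g : Γ) (hg : g ≠ 1) : ∀ᶠ n in atTop, φ n g ≠ 1 := by
  have c : ∀ u, Commute (em u) (em (φ 0 v)) → ∃ k : ℤ, u = φ 0 (v ^ k) := fun u hu => by
    obtain ⟨t, -, h⟩ := cent_gen (φ 0 v) fun e => by
      rw [e, map_one] at hχ; exact absurd hχ (by decide)
    obtain ⟨k, hk⟩ := h _ (Commute.refl _)
    obtain ⟨l, rfl⟩ := h u (em_inj (by simpa using hu.eq))
    have := congrArg Multiplicative.toAdd hχ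
    rw [hk, map_zpow, toAdd_zpow, toAdd_ofAdd, smul_eq_mul] at this
    refine ⟨k * l, ?_⟩
    rw [map_zpow, hk, ← zpow_mul, ← mul_assoc]
    rcases Int.eq_one_or_neg_one_of_mul_eq_one this with rfl | rfl <;> simp
  refine (double (B := fun i => cond i τ'.range τ.range) (v := v) (by rintro (_ | _) <;> assumption)
    hB (fun n => em.comp (φ n)) ?_ ?_ ?_ ht g hg).mono fun n h e => h (by simp [e])
  · rintro n _ ⟨u, rfl⟩
    exact congrArg em (DFunLike.congr_fun (ext_hom ((φ n).comp τ) ((φ 0).comp τ) (h0 n)) u)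
  · rintro n _ ⟨u, rfl⟩
    have := DFunLike.congr_fun (ext_hom ((φ n).comp τ')
      ((MulAut.conj (φ 0 v ^ n)⁻¹).toMonoidHom.comp ((φ 0).comp τ')) fun i => by
        simpa [-map_inv, -map_pow] using h1 n i) u
    have h2 : φ n (τ' u) = (φ 0 v ^ n)⁻¹ * φ 0 (τ' u) * (φ 0 v ^ n)⁻¹⁻¹ := this
    simp [h2]
  · rintro (_ | _) _ ⟨u, rfl⟩ h
    · obtain ⟨k, hk⟩ := c _ h
      obtain ⟨u', hu'⟩ := zpow_mem hv k
      exact ⟨k, hu'.symm.trans (congrArg τ (i0 (by simpa [hu'] using hk.symm)))⟩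
    · obtain ⟨k, hk⟩ := c _ h
      obtain ⟨u', hu'⟩ := zpow_mem hv' k
      exact ⟨k, hu'.symm.trans (congrArg τ' (i1 (by simpa [hu'] using hk.symm)))⟩

theorem top_of {ι : Type} {S : Subgroup (FreeGroup ι)} (h : ∀ i, of i ∈ S) : S = ⊤ := by
  rw [eq_top_iff, ← closure_range_of, Subgroup.closure_le]
  rintro _ ⟨i, rfl⟩
  exact h i

def ψ (m : ℕ) : F3 →* F3 := lift ![of 0, of 1, (of 0)⁻¹ ^ m * of 1 * of 0 ^ m]

theorem ψ_ne (g : F3) (hg : g ≠ 1) : ∀ᶠ n in atTop, ψ n g ≠ 1 := by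
  refine double' (lift ![of 0, of 1] : F2 →* F3) (lift ![of 0, of 2] : F2 →* F3) (of 0)
    ⟨of 0, by simp⟩ ⟨of 0, by simp⟩ (top_of fun i => ?_) ψ ?_ ?_
    (linv _ (lift ![of 0, of 1, 1]) ?_) (linv _ (lift ![of 0, of 1, 1]) ?_)
    (lift ![Multiplicative.ofAdd 1, 1, 1]) (by simp [ψ]) ?_ g hg
  · fin_cases i
    · exact Subgroup.mem_sup_left ⟨of 0, by simp⟩
    · exact Subgroup.mem_sup_left ⟨of 1, by simp⟩
    · exact Subgroup.mem_sup_right ⟨of 1, by simp⟩
  · intro n i; fin_cases i <;> simp [ψ]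
  · intro n i; fin_cases i <;> simp [ψ, mul_assoc, ← pow_succ', pow_succ]
  · ext i; fin_cases i <;> simp [ψ]
  · ext i; fin_cases i <;> simp [ψ]
  · simp [ψ, em, al, jj, rho, gens, mA, mB]

def aF : F4 := of 1 ^ 2 * of 2 ^ 3 * (of 3)⁻¹ ^ 2
def y0 : F3 := (of 2)⁻¹ ^ 2 * of 0
def w0 : F3 := of 0 * y0 ^ 2

def φ (n : ℕ) : F4 →* F3 :=
  lift ![of 1, w0⁻¹ ^ n * of 2 * w0 ^ n, w0⁻¹ ^ n * y0 * w0 ^ n, y0]

theorem φ_v (n : ℕ) : φ n (of 1 ^ 2 * of 2 ^ 3) = w0 := by
  have e : of 2 ^ 2 * y0 ^ 3 = w0 := by simp only [w0, y0, pow_succ]; group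
  have : φ n (of 1 ^ 2 * of 2 ^ 3) = w0⁻¹ ^ n * (of 2 ^ 2 * y0 ^ 3) * w0 ^ n := by
    simp only [φ, map_mul, map_pow, lift_apply_of, Matrix.cons_val]
    rw [inv_pow]
    generalize w0 ^ n = u
    simp [pow_succ, mul_assoc]
  rw [this, e]
  group

theorem φ_a (n : ℕ) : φ n aF = of 0 := by
  rw [aF, map_mul, φ_v]
  simp [φ, w0]

theorem φ_ne (g : F4) (hg : g ≠ 1) : ∀ᶠ n in atTop, φ n g ≠ 1 := by
  refine double' (lift ![aF, of 0, of 3] : F3 →* F4) (lift ![of 1, of 2] : F2 →* F4)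
    (of 1 ^ 2 * of 2 ^ 3) ⟨of 0 * of 2 ^ 2, by simp [aF]⟩ ⟨of 0 ^ 2 * of 1 ^ 3, by simp⟩
    (top_of fun i => ?_) φ ?_ ?_
    (wr _ (lift ![dg (of 0) 1, dg (of 1) 1, sw (of 0 * (of 2)⁻¹)]) fun i g => ?_)
    (linv _ (lift ![of 0 ^ 2 * of 1, 1, of 0]) ?_)
    (lift ![Multiplicative.ofAdd (-1), 1, Multiplicative.ofAdd (-1)]) ?_ ?_ g hg
  · fin_cases i
    · exact Subgroup.mem_sup_left ⟨of 1, by simp⟩
    · exact Subgroup.mem_sup_right ⟨of 0, by simp⟩
    · exact Subgroup.mem_sup_right ⟨of 1, by simp⟩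
    · exact Subgroup.mem_sup_left ⟨of 2, by simp⟩
  · intro n i; fin_cases i
    · simp [φ_a]
    all_goals simp [φ]
  · intro n i; rw [φ_v]; fin_cases i <;> simp [φ]
  · fin_cases i
    · simp [φ_a, dg]
    all_goals simp [φ, y0, sw, dg, Equiv.Perm.inv_def, sq]
  · ext i; fin_cases i <;> simp [φ, y0]
  · rw [φ_v]; simp [w0, y0]; rfl
  · rw [φ_v]; simp [w0, y0, em, al, jj, rho, gens, mA, mB, pow_succ]

def io : F3 →* F4 := lift ![aF, of 0, 1]

def HH : Subgroup F4 := (lift ![aF, of 0] : F2 →* F4).range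

theorem io_mem (g : F3) : io g ∈ HH := by
  have : HH.comap io = ⊤ := top_of fun i => by
    fin_cases i
    · exact ⟨of 0, by simp [io]⟩
    · exact ⟨of 1, by simp [io]⟩
    · exact ⟨1, by simp [io]⟩
  exact (this.ge (Subgroup.mem_top g) :)

def ret (n m : ℕ) : F4 →* HH := ((io.comp (ψ m)).comp (φ n)).codRestrict HH fun _ => io_mem _

theorem ret_id (n m : ℕ) : (ret n m).comp HH.subtype = MonoidHom.id HH := by
  ext ⟨_, u, rfl⟩
  exact DFunLike.congr_fun (ext_hom (((io.comp (ψ m)).comp (φ n)).comp (lift ![aF, of 0]))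
    (lift ![aF, of 0] : F2 →* F4) fun i => by
      fin_cases i
      · simp [φ_a, ψ, io]
      · simp [φ, ψ, io]) u

theorem ret_ne (I : Finset F4) (h : ∀ g ∈ I, g ≠ 1) : ∃ n m, ∀ g ∈ I, ret n m g ≠ 1 := by
  obtain ⟨n, hn⟩ := ((eventually_all_finset I).2 fun g hg => φ_ne g (h g hg)).exists
  obtain ⟨m, hm⟩ := ((eventually_all_finset I).2 fun g hg => ψ_ne _ (hn g hg)).exists
  refine ⟨n, m, fun g hg e => hm g hg ?_⟩
  have a : ((φ 0).comp io).comp (ψ m) = ψ m := ext_hom _ _ fun i => by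
    have : φ 0 (of 0) = of 1 := by simp [φ]
    fin_cases i <;> simp [ψ, io, φ_a, this]
  have b : io (ψ m (φ n g)) = 1 := congrArg Subtype.val e
  rw [← a]
  simp [b]

abbrev Q := DihedralGroup 3

def sol (q : Q) : Finset (Q × Q × Q) :=
  Finset.univ.filter fun t => t.1 ^ 2 * t.2.1 ^ 3 * t.2.2⁻¹ ^ 2 = q

theorem not_ff (K : Subgroup F4) :
    ¬ Function.Bijective (Monoid.Coprod.lift HH.subtype K.subtype) := fun hK => by
  let e := MulEquiv.ofBijective _ hK
  let L : Q × Q × Q → F4 →* Q := fun t => lift ![1, t.1, t.2.1, t.2.2]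
  let Φ : Q × Q × Q → F4 →* Q := fun t => (Monoid.Coprod.lift
    ((L (1, .r 1, .r 1)).comp HH.subtype) ((L t).comp K.subtype)).comp e.symm.toMonoidHom
  have a : ∀ t, ∀ h ∈ HH, Φ t h = L (1, .r 1, .r 1) h := fun t h hh => by
    have : e.symm h = Monoid.Coprod.inl ⟨h, hh⟩ := e.symm_apply_eq.2 rfl
    simp [Φ, this]
  have b : ∀ t, ∀ h ∈ K, Φ t h = L t h := fun t h hh => by
    have : e.symm h = Monoid.Coprod.inr ⟨h, hh⟩ := e.symm_apply_eq.2 rfl
    simp [Φ, this]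
  have c : ∀ t ∈ sol 1, (L t).comp HH.subtype = 1 := fun t ht => by
    ext ⟨_, u, rfl⟩
    exact DFunLike.congr_fun (ext_hom ((L t).comp (lift ![aF, of 0])) (1 : F2 →* Q) fun i => by
      fin_cases i
      · simpa [sol, L, aF] using ht
      · simp [L]) u
  have := Finset.card_le_card_of_injOn (s := sol 1) (t := sol (.r 1))
    (fun t => (Φ t (of 1), Φ t (of 2), Φ t (of 3))) (fun t _ => by
      have := a t aF ⟨of 0, by simp⟩
      simp only [aF, map_mul, map_pow, map_inv, L, lift_apply_of, Matrix.cons_val] at this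
      simp only [sol, Finset.coe_filter, Finset.mem_univ, true_and, Set.mem_ofPred_eq, this]
      decide) (fun t ht t' ht' h => by
      simp only [Prod.mk.injEq] at h
      have d : Φ t = Φ t' := ext_hom _ _ fun i => by
        fin_cases i
        · exact (a t _ ⟨of 1, by simp⟩).trans (a t' _ ⟨of 1, by simp⟩).symm
        exacts [h.1, h.2.1, h.2.2]
      have f : (L t).comp e.toMonoidHom = (L t').comp e.toMonoidHom :=
        Monoid.Coprod.hom_ext ((c t ht).trans (c t' ht').symm) (MonoidHom.ext fun k =>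
          (b t k k.2).symm.trans (d ▸ b t' k k.2))
      have f' : L t = L t' := (MonoidHom.cancel_right e.surjective).1 f
      have := fun i => DFunLike.congr_fun f' (of i)
      exact Prod.ext (by simpa [L] using this 1)
        (Prod.ext (by simpa [L] using this 2) (by simpa [L] using this 3)))
  exact absurd this (by decide +kernel)

end Pool.Agent.H.MP_9442c3_al
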